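import Pool.Agent.MWNP.Stmts

/-!
Clause c3c of base (h), period `n` (twin of N3C by helper21).
-/

set_option autoImplicit false

namespace Pool.Agent.MWNP.H3

open Pool.Agent.Helper14_MV Pool.Agent.Helper2_MV Pool.Agent.MVO Pool.Agent.MWL Pool.Agent.MWS
  Pool.Agent.MWF Pool.Agent.MWN

/-- three blocks -/
def b3 (x y z : List ℕ) : ℕ → List ℕ :=
  fun j => if j = 0 then x else if j = 1 then y else if j = 2 then z else []

theorem sub' {β : FIC} (g : ℕ → List ℕ) {l l' m m' : List ℕ} (h : RR β l l')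
    (e : l.flatMap g = m) (e' : l'.flatMap g = m') : RR β m m' := by
  rw [← e, ← e']
  exact h.sub g

theorem ctx {β : FIC} (p q : List ℕ) {l l' m m' : List ℕ} (h : RR β l l')
    (e : p ++ l ++ q = m) (e' : p ++ l' ++ q = m') : RR β m m' := by
  rw [← e, ← e']
  exact ((RR.refl p).append h).append (RR.refl q)

theorem two_b3 {x y z : List ℕ} (h : ∀ c ∈ x ++ (y ++ z), c = 0 ∨ c = 1) : Two01 2 (b3 x y z) := by
  intro j hj c hc
  have h1 : j = 0 ∨ j = 1 ∨ j = 2 := by omega
  rcases h1 with rfl | rfl | rfl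
  · exact h c (List.mem_append_left _ hc)
  · exact h c (List.mem_append_right _ (List.mem_append_left _ hc))
  · exact h c (List.mem_append_right _ (List.mem_append_right _ hc))

theorem ok_b3 {x y z : List ℕ} (h : ∀ c ∈ x ++ (y ++ z), c = 0 ∨ c = 1)
    (h0 : 2 ≤ deg 2 (ty (b3 x y z) 0)) (h1 : 2 ≤ deg 2 (ty (b3 x y z) 1)) :
    OkB 2 (b3 x y z) := by
  refine ⟨fun j hj c hc => ?_, fun j hj c hc => ?_⟩
  · have := two_b3 h j hj c hc
    unfold NS
    omega
  · rcases two_b3 h j hj c hc with rfl | rfl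
    · exact h0
    · exact h1

theorem sh_b3 {n : ℕ} {a b : ℕ → ℕ} (h : ∀ j < 3, a j = b j) : Shn n 2 a b :=
  fun j hj => Or.inl (h j (by omega))

theorem e220 {n : ℕ} {β : FIC} (hE : Op n β Bit.E) {a : ℕ → ℕ} (h : mw 2 a = [0, 0, 2, 0, 0, 3]) :
    Ab n (FC.ofFIC β) 2 a 2 := by
  have h0 : RR β (mw 1 (v2 2 0)) (mw 1 (ad n (v2 2 0) 1)) := hE
  have e0 : mw 1 (v2 2 0) = [0, 0, 2] := by decide
  have e1 : mw 1 (ad n (v2 2 0) 1) = [0, 0, 2] ++ List.replicate (2 * n) 0 := by
    simp [mw, asm, ad, v2]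
  rw [e0, e1] at h0
  have h1 := h0.sub (fun c => if c = 2 then [3] else [c])
  have e2 : (List.replicate (2 * n) 0).flatMap (fun c => if c = 2 then [3] else [c]) =
      List.replicate (2 * n) 0 := by
    generalize 2 * n = m
    induction m with
    | zero => rfl
    | succ m ih => rw [List.replicate_succ, List.flatMap_cons, ih]; rfl
  rw [List.flatMap_append, e2] at h1
  have h2 := (RR.refl (β := β) [0, 0, 2]).append h1
  have h3 : RR β (mw 2 a) (mw 2 (ad n a 2)) := by
    have e3 : mw 2 (ad n a 2) = mw 2 a ++ List.replicate (2 * n) 0 := by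
      simp [mw, asm, ad]
    rw [e3, h]
    exact h2
  exact h3

theorem p3c (hp : PphStmt) (hx : PcxStmt) (ho : PcoStmt) (ha : MWL.ArrStmt) (hb : PhbStmt) :
    P3cStmt := by
  intro n β H hi hm hD st
  by_contra h3
  have hE : ¬ Op n β Bit.E := by
    intro hE
    apply h3
    cases st
    · exact ho n β H hi 2 (b3 [0, 0, 1] [0, 0] [1]) (b3 [0, 1, 0] [0, 0] [1]) 0 1 2
        (ok_b3 (by decide) (by decide) (by decide)) (ok_b3 (by decide) (by decide) (by decide))
        (two_b3 (by decide)) (two_b3 (by decide)) (sh_b3 (by decide)) (sh_b3 (by decide))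
        (Or.inl ⟨rfl, rfl⟩) le_rfl (by decide) (by decide) (by decide)
        (e220 hE (by decide))
    · exact ho n β H hi 2 (b3 [1, 0, 0] [0, 0] [1]) (b3 [0, 1, 0] [0, 0] [1]) 0 1 2
        (ok_b3 (by decide) (by decide) (by decide)) (ok_b3 (by decide) (by decide) (by decide))
        (two_b3 (by decide)) (two_b3 (by decide)) (sh_b3 (by decide)) (sh_b3 (by decide))
        (Or.inl ⟨rfl, rfl⟩) le_rfl (by decide) (by decide) (by decide)
        (e220 hE (by decide))
  have hG : ¬ Op n β Bit.G := fun h => hD ((ha n (FC.ofFIC β) (hb n β H hi).2.2.1).2.2.1 h)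
  have hA1 : Clo β 2 (cd3 Cd.one Cd.pos Cd.z) := hx n β H hi [8, 3, 0] 2 _
    (by
      intro x hx
      simp only [List.mem_cons, List.not_mem_nil, or_false] at hx
      tauto) (by decide +kernel)
  have hB1 : Clo β 2 (cd3 Cd.one Cd.z Cd.one) := hx n β H hi [8] 2 _
    (by
      intro x hx
      simp only [List.mem_cons, List.not_mem_nil, or_false] at hx
      tauto) (by decide +kernel)
  have hA2 : Clo β 2 (cd3 Cd.pos Cd.pos Cd.z) := hx n β H hi [8, 3, 2, 0] 2 _
    (by
      intro x hx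
      simp only [List.mem_cons, List.not_mem_nil, or_false] at hx
      tauto) (by decide +kernel)
  rcases hp n β H hi hm 2 0 (cd3 Cd.one Cd.pos Cd.z) (cd3 Cd.one Cd.z Cd.one)
    (cd3 Cd.pos Cd.pos Cd.z) (cd3 Cd.one Cd.z Cd.one) st (v3 2 2 0)
    (v3 1 2 0) (v3 1 0 1) (v3 1 0 1) (by decide +kernel) (by decide) (by decide)
    (by decide) (by decide) hA1 hB1 hA2 hB1 with h | h
  · apply h3
    cases st
    · have h1 : RR β [0, 1, 2, 0, 0, 3, 1] [1, 0, 2, 0, 0, 3, 1] := h
      have h2 : RR β [0, 0, 1, 2, 0, 0, 3, 1] [0, 1, 0, 2, 0, 0, 3, 1] :=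
        ctx [0] [] h1 rfl rfl
      exact h2
    · have h1 : RR β [1, 0, 2, 0, 0, 3, 1] [0, 1, 2, 0, 0, 3, 1] := h
      have h2 : RR β [1, 0, 0, 2, 0, 0, 3, 1] [0, 1, 0, 2, 0, 0, 3, 1] :=
        sub' (fun c => if c = 2 then [0, 2] else [c]) h1 rfl rfl
      exact h2
  · apply h3
    cases st
    · exact h
    · exact h

end Pool.Agent.MWNP.H3
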